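import Pool.Agent.DiophGraph.Core

set_option autoImplicit false

namespace Pool.Agent.Results.MP_72d9c6_nt.NonCubic

open Pool.Agent.DiophGraph

/-- Let `G` be a finite graph of maximum degree at most three and let `A` be empty or a union of
components inducing a triangular prism. If every 3-regular component of `G` outside `A` is `K₄`,
then `G` is Diophantine. -/
theorem result (V : Type) [Finite V] (G : SimpleGraph V) (h3 : ∀ v, (G.neighborSet v).ncard ≤ 3)
    (A : Set V) (hA : ∀ v ∈ A, ∀ w, G.Adj v w → w ∈ A)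
    (hK : ∀ v, v ∉ A → (∀ w, G.Reachable v w → (G.neighborSet w).ncard = 3) →
      ∃ x y z, G.Adj v x ∧ G.Adj v y ∧ G.Adj v z ∧ G.Adj x y ∧ G.Adj x z ∧ G.Adj y z)
    (hp : A = ∅ ∨ Nonempty (G.induce A ≃g prism)) : Diophantine G := by
  refine (peelable G A ?_ (cubicK4 G A hA h3 hK)).dioph
  rcases hp with rfl | ⟨⟨e⟩⟩
  · exact strong_empty G
  · exact strong_prism.comap e.toEmbedding

end Pool.Agent.Results.MP_72d9c6_nt.NonCubic
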